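import Pool.Agent.K1H49.PL.Gen

/-! Extension of patterns (project PL, for PLG-EXN). -/

set_option autoImplicit false

namespace Pool.Agent.K1H34.PLG

open Pool.Agent.K1H49.PL

/-- patterns of height `a` extend to patterns of height `N` -/
theorem ext_pt {a N : ℕ} (h : a ≤ N) (E : LN a → Nd) (hE : Pt ndl a E) :
    ∃ E' : LN N → Nd, Pt ndl N E' ∧ ∀ (η : LN a) (hη : η.1.length ≤ N), E' ⟨η.1, hη⟩ = E η := by
  refine ⟨fun η => E ⟨η.1.take a, by simp [List.length_take]⟩ ++ η.1.drop a, ?_, ?_⟩
  · rintro ⟨η, hη⟩ ⟨η', hη'⟩ d hd
    obtain ⟨ζ, hζ⟩ := hd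
    simp only at hζ
    subst hζ
    by_cases hl : η.length < a
    · have h1 : η.take a = η := List.take_of_length_le hl.le
      have h2 : η.drop a = [] := List.drop_eq_nil_of_le hl.le
      have h3 : ndl d (E ⟨η.take a, by simp [List.length_take]⟩)
          (E ⟨(η ++ [d] ++ ζ).take a, by simp [List.length_take]⟩) := by
        apply hE
        simp only [h1]
        have h4 : (η ++ [d] ++ ζ).take a = (η ++ [d]) ++ ζ.take (a - (η ++ [d]).length) := by
          rw [List.take_append, List.take_of_length_le]
          simp; omega
        rw [h4]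
        exact List.prefix_append _ _
      unfold ndl at h3 ⊢
      simp only [h2, List.append_nil]
      exact h3.trans (List.prefix_append _ _)
    · have hl' : a ≤ η.length := not_lt.1 hl
      have h4 : (η ++ [d] ++ ζ).take a = η.take a := by
        rw [List.append_assoc, List.take_append_of_le_length hl']
      have h5 : (η ++ [d] ++ ζ).drop a = η.drop a ++ [d] ++ ζ := by
        rw [List.append_assoc, List.drop_append_of_le_length hl', List.append_assoc]
      unfold ndl
      simp only [h4, h5]
      rw [← List.append_assoc, ← List.append_assoc]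
      exact List.prefix_append _ _
  · rintro ⟨η, hη⟩ hη'
    simp only [List.take_of_length_le hη, List.drop_eq_nil_of_le hη, List.append_nil]

end Pool.Agent.K1H34.PLG
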