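import Pool.Agent.K1H49.PL.Gen

/-! The pattern `E0'` (project PL, for PLG-EXN). -/

set_option autoImplicit false

namespace Pool.Agent.K1H34.PLG

open Pool.Agent.K1H49.PL

theorem irr {I : Type} {lt : Bool → I → I → Prop} (hbt : BT lt) (π : I) (d : Bool) :
    ¬ lt d π π := by
  intro h
  exact hbt.wf.isIrrefl.irrefl π ⟨d, h⟩

open Classical in
theorem pt_swap {I : Type} {lt : Bool → I → I → Prop} (hbt : BT lt) (π : I) {C0 C1 : Nd → I}
    (h0 : Cpy lt C0) (h0' : ∀ ρ, lt false π (C0 ρ)) (h1 : Cpy lt C1) (h1' : ∀ ρ, lt true π (C1 ρ))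
    {n : ℕ} (E0 : LN n → I) (hE0 : Pt lt n E0) (e0 e1 : LN n → Nd) (he0 : Pt ndl n e0)
    (he1 : Pt ndl n e1) :
    Pt lt n (fun η => if lt false π (E0 η) then C0 (e0 η) else
      if lt true π (E0 η) then C1 (e1 η) else E0 η) := by
  intro η η' d' hd
  have hlt := hE0 η η' d' hd
  -- below a cone point
  have key : ∀ (d : Bool) (b : I), lt d π (E0 η') → lt d π b → ¬ lt false π (E0 η) →
      ¬ lt true π (E0 η) → lt d' (E0 η) b := by
    intro d b hc hb hf ht
    rcases hbt.lin hlt hc with h | ⟨e, h⟩ | ⟨e, h⟩
    · have h2 : lt d (E0 η) (E0 η') := by rw [h]; exact hc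
      have h3 : d' = d := hbt.uniq hlt h2
      rw [h3, h]
      exact hb
    · have h2 : lt e (E0 η) (E0 η') := hbt.trans h hc
      have h3 : d' = e := hbt.uniq hlt h2
      rw [h3]
      exact hbt.trans h hb
    · exfalso
      cases e
      · exact hf h
      · exact ht h
  by_cases a0 : lt false π (E0 η)
  · have b0 : lt false π (E0 η') := hbt.trans a0 hlt
    simp only [a0, b0, if_true]
    exact h0 _ _ _ (he0 η η' d' hd)
  · by_cases a1 : lt true π (E0 η)
    · have b1 : lt true π (E0 η') := hbt.trans a1 hlt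
      have b0 : ¬ lt false π (E0 η') := fun h => by
        have := hbt.uniq h b1
        exact absurd this (by decide)
      simp only [a0, a1, b0, b1, if_true, if_false]
      exact h1 _ _ _ (he1 η η' d' hd)
    · simp only [a0, a1, if_false]
      by_cases b0 : lt false π (E0 η')
      · simp only [b0, if_true]
        exact key false _ b0 (h0' _) a0 a1
      · by_cases b1 : lt true π (E0 η')
        · simp only [b0, b1, if_true, if_false]
          exact key true _ b1 (h1' _) a0 a1
        · simp only [b0, b1, if_false]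
          exact hlt

end Pool.Agent.K1H34.PLG
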